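import Pool.Agent.U166.OF.StG

/-!
# Automorphism groups which preserve a chain of free factors, and the Farrell–Jones class

`C` is any class of groups with the closure properties `ClosedE C` which contains the groups `F ⋊ Z` for
all free groups `F` and all automorphisms of `F` (`FbC C`). All this is published for the class of the
groups which satisfy the K-theoretic Farrell–Jones conjecture with coefficients in additive categories and
finite wreath products; for torsion-free groups `H` in this class `K_n(R H) = 0` for all regular rings `R`
and all `n < 0`.

Let `G 0 < G 1 < G 2 < ...` be groups such that `G (k+1)` is the free product of `G k` and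

* one freely indecomposable group `B k`, which may be infinite cyclic, or
* two freely indecomposable groups `B k`, `D k`, not infinite cyclic.

The group `G 0` is an arbitrary nontrivial group, and `T` is an arbitrary group of automorphisms of
`G 0`; torsion is allowed everywhere and there are no finiteness conditions. Let `S n` be the group of
the automorphisms of `G n` which map all `G k`, `k < n`, onto themselves and restrict to members of `T`
on `G 0`. The theorem: `G n ⋊ S n` is in `C` if and only if `G 0 ⋊ T` and the holomorphs of all `B k`,
`D k`, `k < n`, are in `C`. In particular the groups `S n` are in `C` then.

For example the stabilizer of a chain of free factors of this kind in the automorphism group of a free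
product of groups, each of which is finite, `Z^m`, or a surface group, is a Farrell–Jones group.

Outline of the proof. Let `A = G k`, `T` the group of automorphisms of `A`.

* Two factors `B`, `D`. The automorphisms of `G = A * B * D` which map `B` and `D` onto conjugates and
  restrict to `T` on `A` are a semidirect product of a copy of `G`, generated by partial conjugations
  (`a` conjugates `B`; `b` conjugates `D`; `d` conjugates `B` and `D`), and of
  `(A ⋊ T) × Aut B × Aut D`, where `a` in `A` conjugates `B` and `D`. This follows from the structure of
  the group of all automorphisms which map the three factors onto conjugates modulo the inner ones, which is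
  proved by ping-pong and length reduction (library of `MP_490288_al.AutomorphismGroups`). Then the theorem
  on extensions with free product kernels is applied twice. By a theorem of Kurosh type for
  indecomposable groups with torsion, automorphisms which preserve `A` permute the classes of `B` and
  `D`.
* One factor `B`, not cyclic: the group is `(A ⋊ T) × Aut B` (up to finite index).
* One infinite cyclic factor, generated by `t`: it is proved that an automorphism of `A * ⟨t⟩` which
  preserves `A` maps `t` to `a t b` or `a t⁻¹ b` with `a`, `b` in `A`; so the group has a subgroup of
  index at most two which embeds in `(A ⋊ T) × (A ⋊ T)`. In the extension by `A * ⟨t⟩` the factor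
  `⟨t⟩` is not preserved up to conjugation, which the theorem on free product kernels allows for free
  factors.
-/

set_option autoImplicit false

namespace Pool.Agent.Results.MP_28303a_al.ChainStabilizers

open Pool.Agent.Y110.FJ Pool.Agent.U166.OF
open Pool.Agent.R684.FP (FbC)

/-- The new factors: `B k` is freely indecomposable, and either `D k` is trivial, or `D k` is
freely indecomposable too and both are not infinite cyclic. -/
def NewFactors (B D : ℕ → Type) [∀ k, Group (B k)] [∀ k, Group (D k)] : Prop :=
  ∀ k, FInd (B k) ∧ (Subsingleton (D k) ∨ (¬ ICyc (B k) ∧ FInd (D k) ∧ ¬ ICyc (D k)))

theorem result (C : ∀ (G : Type) [Group G], Prop) (hC : ClosedE C) (hF : FbC C)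
    (G B D : ℕ → Type) [∀ k, Group (G k)] [∀ k, Group (B k)] [∀ k, Group (D k)]
    (X : Chain G B D) (hG : Nontrivial (G 0)) (hB : NewFactors B D)
    (T : Subgroup (MulAut (G 0))) (n : ℕ) :
    (C (HolT (Stab X T n)) ↔ C (HolT T) ∧ ∀ k < n, C (Hol (B k)) ∧ C (Hol (D k))) ∧
    (C (HolT (Stab X T n)) → C (Stab X T n)) :=
  ⟨chain hC hF X hG (fun k => (hB k).1) (fun k => (hB k).2) T n, fun h => holT_right hC h⟩

end Pool.Agent.Results.MP_28303a_al.ChainStabilizers
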