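import Pool.Agent.U385.RT.Gi5

/-!
# Relations along the edges of graphs of girth at least five, and the Farrell-Jones conjecture

`C` is any class of groups with the closure properties `ClosedE C`, which contains with the vertex
stabilizers every finitely generated group which acts acylindrically on a tree (`Acyl C`: the
stabilizers of the paths of a certain length are trivial). The class of the groups whose wreath
products with finite groups satisfy the K-theoretic Farrell-Jones conjecture with coefficients in
additive categories has these properties (Bartels-Lueck-Reich, Bartels-Farrell-Lueck, Wegner; Knopf for
`Acyl`), and contains the metabelian groups (Wegner). For the torsion-free groups `G` of this class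
`K_n(RG) = 0` for all `n ≤ -1` and all regular rings `R`.

Let `V` be a set of any cardinality, with a linear order which only serves to name the edges, let `Γ`
be a graph on `V` without cycles of length three and four, let `G v` be groups in `C`, and for each
edge `u < v` let `R u v` be a set of elements of `G u * G v`. Suppose that (`GirthFive`)

* `G u` and `G v` embed in the group of the edge `E(u, v) = (G u * G v) / ⟨⟨R u v⟩⟩` and meet
  trivially there, and
* for each vertex `u` and each edge `{u, v}`, with at most one exception `v` for each `u`, the subgroup
  `G u` of the edge group is malnormal and none of its nontrivial elements is conjugate into `G v`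
  (`Isol`),

and that the edge groups are in `C`. Then the free product of all `G v` modulo all these relations
is in `C`. There is no condition on orientations and cycles; no homomorphisms to other groups are
required (the groups may be perfect and have no finite quotients).

The main example: let `D` be a set of arrows on `V` without loops, double arrows, and cycles of length
three or four of the underlying graph, such that each vertex is the end of at most one arrow. Then the group
`⟨V | u v u⁻¹ = v ^ q(u, v) for all arrows u → v⟩`, `|q(u, v)| ≥ 2`, is in `C`. For the directed
cycle of length `n ≥ 5` and `q = 2` this is Higman's group `H_n`, which has no nontrivial finite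
quotients; all earlier criteria along graphs (retractions, one-sided relations) need a homomorphism to
a group in `C` which is injective on the amalgamated subgroups, and do not apply to it.

Outline of the proof. For a finite set `S` of vertices and `b` in `S` the group `Q S` with the generators
and relations in `S` is the amalgamated product of `Q (S - b)` and the group `Q (K + b)` of the star of
`b` over the free product `F = Q K`, where `K` is the set of the neighbours of `b` (`ind_main`, see
MP_16fe43_al.TriangleFreeAmalgams). The new step is that the tree of this amalgam is acylindrical: if
`1 ≠ g` is in `F`, `a⁻¹ g a` in `F` for some `a` in `Q (S - b)` outside `F`, and `l⁻¹ g l` in `F` for some `l` in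
`Q (K + b)` outside `F`, there is a contradiction. Indeed any two elements of `K` have distance at least
three in `S - b`. If `g` is not conjugate in `F` into a vertex group then for a suitable `u` in `K` it is
hyperbolic on the tree of the decomposition of `Q (S - b)` at `u`, its axis lies in the subtrees spanned by
`F` and by `a F`, and since the free product of the neighbours of `u` and of `K - u` embeds in
`Q (S - b - u)` it follows that `a` is in `F` (`lemH`, `hyp`). Otherwise one may assume that `g` is in `G u`; and
`G u` is isolated in the group of `{u, b}`, which implies that `l` is in `F`, or in the groups of all other
edges of `u`, which implies that `a` is in `F` (`starMal`, `outL`).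
-/

set_option autoImplicit false

namespace Pool.Agent.Results.MP_28303a_al.GirthFive

open Pool.Agent.Y110.FJ (ClosedE)
open Pool.Agent.N509.TK (Acyl)
open Pool.Agent.U385.RT (GirthFive oneRel bsRel girth_main bs_girth)

/-- Let `C` be a class of groups with the closure properties `ClosedE C` and `Acyl C`. (1) Let `Γ` be a
graph on a linearly ordered set `V`, `G v` groups in `C`, and `R u v`, for the edges `u < v`, sets of
elements of `G u * G v`. Assume that `Γ` has no cycles of length three or four, that the vertex groups
embed in the edge groups `(G u * G v) / ⟨⟨R u v⟩⟩` and meet trivially, that for each `u` in all its edge
groups, with at most one exception, `G u` is malnormal and not conjugate into the other vertex group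
(`GirthFive`), and that the edge groups are in `C`. Then the free product of the `G v` modulo all these
relations is in `C`. (2) Assume that `C` contains the metabelian groups. Let `D` be a set of arrows on a
set `V` without loops and double arrows, each vertex being the end of at most one arrow, whose underlying
graph has no cycles of length three or four. Then `⟨V | u v u⁻¹ = v ^ q(u, v), u → v⟩` is in `C`, if
`|q(u, v)| ≥ 2` for all arrows. -/
theorem result (C : ∀ (G : Type) [Group G], Prop) (hC : ClosedE C) (hA : Acyl C) :
    (∀ (V : Type) [LinearOrder V] (Γ : SimpleGraph V) (G : V → Type) [∀ v, Group (G v)]
      (R : ∀ u v, Set (Monoid.Coprod (G u) (G v))), GirthFive Γ R → (∀ v, C (G v)) →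
        (∀ u v, u < v → Γ.Adj u v →
          C (Monoid.Coprod (G u) (G v) ⧸ Subgroup.normalClosure (R u v))) →
        C (Monoid.CoprodI G ⧸ Subgroup.normalClosure (oneRel Γ R))) ∧
    ((∀ (G : Type) [Group G], derivedSeries G 2 = ⊥ → C G) →
      ∀ (V : Type) (D : V → V → Prop), (∀ u v, D u v → ¬ D v u) →
        (∀ u u' v, D u v → D u' v → u = u') →
        (∀ u v w, (D u v ∨ D v u) → (D v w ∨ D w v) → ¬ (D u w ∨ D w u)) →
        (∀ a b c d, a ≠ c → b ≠ d → (D a b ∨ D b a) → (D b c ∨ D c b) → (D c d ∨ D d c) →
          ¬ (D d a ∨ D a d)) →
        ∀ q : V → V → ℤ, (∀ u v, D u v → 2 ≤ |q u v|) →
          C (PresentedGroup (bsRel D (fun _ _ => 1) q))) :=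
  ⟨fun _ _ _ _ _ _ h hG hE => girth_main hC hA h.toG hG hE,
    fun hM _ D has hin htri hsq q hq => bs_girth hC hA hM D has hin htri hsq q hq⟩

end Pool.Agent.Results.MP_28303a_al.GirthFive
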