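import Pool.Agent.U181.TG.Cls

/-!
# One countable test group for the vanishing of the negative `K`-groups of group rings

There is one countable torsion-free group `Γ₀` such that, for every coefficient ring `R`, all groups
`K_{-m}(R[Γ])`, `m ≥ 1`, vanish for all torsion-free groups `Γ` if and only if `K_{-1}(R[Γ₀]) = 0`. The same
holds for every class of groups which contains `ℤ` and is closed under subgroups and direct products.

`Γ₀` is the restricted direct product of the largest torsion-free quotients of the finitely presented
groups. `KN R m G` is Bass's group `K_{-m}(R[G])` (the functors `K0F`, `contr`, `Kneg` of the starting library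
`Pool/Agent/Y75/NK/K0.lean`: `K_0` is the Grothendieck group of idempotent matrices, and `K_{-m-1}(A)` is the
cokernel of `K_{-m}(A[t]) ⊕ K_{-m}(A[t⁻¹]) → K_{-m}(A[t, t⁻¹])`).
-/

set_option autoImplicit false

namespace Pool.Agent.Results.MP_28303a_al.TestGroups

open Pool.Agent.U181.TG

/-- (1) The class of torsion-free groups is closed under subgroups and direct products and contains the
infinite cyclic group. (2) Let `C` be any class of groups with these properties. The restricted direct
product `Test C` of the largest quotients `LQ C r S` in `C` of all finitely presented groups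
`⟨x_1, ..., x_r | S⟩` is a countable group in `C`, and for every ring `R` the following are equivalent:
`K_{-m}(R[Γ]) = 0` for all groups `Γ` in `C` and all `m ≥ 1`; `K_{-1}(R[Γ]) = 0` for the largest quotients
`Γ` in `C` of the finitely presented groups; `K_{-1}(R[Test C]) = 0`. -/
theorem result :
    (ClosedSP (fun G _ => TorsionFree G) ∧ TorsionFree (Multiplicative ℤ)) ∧
    ∀ C : ∀ (G : Type) [Group G], Prop, ClosedSP C → C (Multiplicative ℤ) →
      (Countable (Test C) ∧ C (Test C)) ∧
      ∀ (R : Type) [Ring R],
        List.TFAE
          [∀ (Γ : Type) [Group Γ], C Γ → ∀ m : ℕ, 1 ≤ m → Subsingleton (KN R m Γ),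
            ∀ (r : ℕ) (S : Finset (FreeGroup (Fin r))), Subsingleton (KN R 1 (LQ C r S)),
            Subsingleton (KN R 1 (Test C))] := by
  refine ⟨⟨closedSP_torsionFree, ?_⟩, fun C hC hZ => ⟨⟨countable_test, class_test hC⟩,
    fun R _ => ?_⟩⟩
  · have h1 : TorsionFree (Multiplicative ℤ × Unit) := torsionFree_prod fun g k _ _ => rfl
    intro g k hk hg
    exact congrArg Prod.fst (h1 (g, ()) k hk (Prod.ext hg rfl))
  · have h1 := KN_tfae R hC
    tfae_have 1 → 3 := fun h => h _ (class_test hC) 1 le_rfl
    tfae_have 3 → 2 := (h1.out 2 1).1
    tfae_have 2 → 1 := fun h Γ _ hΓ m hm => KN_allC R hC hZ ((h1.out 1 0).1 h) m hm Γ hΓ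
    tfae_finish

end Pool.Agent.Results.MP_28303a_al.TestGroups
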