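import Pool.Agent.U674.TJ.Neg

/-!
# Negative `K`-groups of group rings and left ideals generated by trinomials

Let `R` be a ring which is generated by a set `T` (as a ring), for example `ℤ` with `T` empty. The groups
`K_{-m}(R[Γ])`, `m ≥ 1`, vanish for all torsion-free groups `Γ` if and only if the classes in
`K_{-1}(R[Γ])` vanish for the projective left ideals of the group ring `R[t, t⁻¹][Γ]` which are generated by
finitely many elements `1 + a + c b`, where `a` and `b` are in `Γ` and `c` is in `T` or equal to `1`, `t` or
`t⁻¹`. One countable torsion-free group `Γ`, which does not depend on `R`, is sufficient.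

Proof. Each class of `K_{-1}(R[G])` is the image of a finitely generated projective module over
`R[ℤ × G] = R[t, t⁻¹][G]`. Over the group ring of the free product of `G` and a free group `F`, and after
adding a free module, this becomes a left ideal generated by trinomials (`main1`, for the coefficient
ring `R[t, t⁻¹]`, which is generated by `T`, `t` and `t⁻¹`): the module has generators and trinomial
relations, and a representation of `G * F` by triangular matrices shows that the relation module
embeds in the group ring. The retraction of `G * F` to `G` gives the class back, and the classes of free
modules vanish. The reduction to one group `G` and one degree is from `MP_28303a_al.TestGroups`.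
-/

set_option autoImplicit false

namespace Pool.Agent.Results.MP_28303a_al.TrinomialIdealsNegative

open Pool.Agent.U674.TJ Pool.Agent.U181.TG

/-- (1) The class of torsion-free groups is closed under subgroups, direct products and free products
with the free group of countable rank, and contains the infinite cyclic group. (2) Let `C` be any class
of groups with these properties. The group `Γ₀ = Test C * F_ℕ` is countable and in `C`, and for every
ring `R` which is generated by `T` the following are equivalent: `K_{-m}(R[Γ]) = 0` for all groups `Γ` in
`C` and all `m ≥ 1`; for all groups `Γ` in `C` the classes in `K_{-1}(R[Γ])` of the projective left ideals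
of `R[t, t⁻¹][Γ]` generated by finitely many elements `1 + a + c b`, with `a, b ∈ Γ` and `c` in `T` or equal
to `1`, `t`, `t⁻¹`, are zero; the same for the group `Γ₀`. -/
theorem result :
    (ClosedF (fun G _ => TorsionFree G) ∧ TorsionFree (Multiplicative ℤ)) ∧
    ∀ C : ∀ (G : Type) [Group G], Prop, ClosedF C → C (Multiplicative ℤ) →
      (Countable (GF (Test C) ℕ) ∧ C (GF (Test C) ℕ)) ∧
      ∀ (R : Type) [Ring R] (T : Set R), Subring.closure T = ⊤ →
        List.TFAE [NegAll C R, NegC C R T, NegOne C R T] := by
  refine ⟨⟨closedF_torsionFree, ?_⟩, fun C hC hZ => ⟨⟨?_, ?_⟩,
    fun R _ T hT => neg_tfae hT hC hZ⟩⟩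
  · have h1 : TorsionFree (Multiplicative ℤ × Unit) := torsionFree_prod fun g k _ _ => rfl
    intro g k hk hg
    exact congrArg Prod.fst (h1 (g, ()) k hk (Prod.ext hg rfl))
  · have := countable_test (C := C)
    exact countable_GF (Test C)
  · exact hC.2 _ (class_test hC.1)

end Pool.Agent.Results.MP_28303a_al.TrinomialIdealsNegative
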